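import Mathlib

set_option autoImplicit false

open Set Metric Topology
open scoped ContDiff

namespace Pool.Agent.Helper49.CB

/-- `ℂ^m` -/
abbrev Cm (m : ℕ) : Type := EuclideanSpace ℂ (Fin m)

/-- the `i`-th coordinate as a real linear map -/
noncomputable def coordR (n : ℕ) (i : Fin n) : Cm n →ₗ[ℝ] ℂ :=
  ((EuclideanSpace.proj i : Cm n →L[ℂ] ℂ) : Cm n →ₗ[ℂ] ℂ).restrictScalars ℝ

lemma coordR_surj (n : ℕ) (i : Fin n) : Function.Surjective (coordR n i) := fun c =>
  ⟨EuclideanSpace.single i c, by simp [coordR]⟩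

/-- the `i`-th column as a real linear map -/
noncomputable def colR (n k : ℕ) (i : Fin n) : (Fin n → Cm k) →ₗ[ℝ] Cm k :=
  LinearMap.proj i

lemma colR_surj (n k : ℕ) (i : Fin n) : Function.Surjective (colR n k i) := fun y =>
  ⟨fun _ => y, rfl⟩

/-- the operator with given columns -/
noncomputable def ofCols {n k : ℕ} (T : Fin n → Cm k) : Cm n →L[ℂ] Cm k :=
  ∑ j, (EuclideanSpace.proj j : Cm n →L[ℂ] ℂ).smulRight (T j)

lemma ofCols_apply {n k : ℕ} (T : Fin n → Cm k) (z : Cm n) : ofCols T z = ∑ j, z j • T j := by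
  simp [ofCols]

lemma norm_ofCols_le {n k : ℕ} (T : Fin n → Cm k) : ‖ofCols T‖ ≤ n * ‖T‖ := by
  refine ContinuousLinearMap.opNorm_le_bound _ (by positivity) fun z => ?_
  rw [ofCols_apply]
  calc ‖∑ j, z j • T j‖ ≤ ∑ j : Fin n, ‖z j • T j‖ := norm_sum_le _ _
    _ ≤ ∑ _j : Fin n, ‖z‖ * ‖T‖ := Finset.sum_le_sum fun j _ => by
        rw [norm_smul]
        exact mul_le_mul (PiLp.norm_apply_le z j) (norm_le_pi_norm T j) (norm_nonneg _)
          (norm_nonneg _)
    _ = n * ‖T‖ * ‖z‖ := by simp; ring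

section
variable {n : ℕ} {P V : Type} [NormedAddCommGroup P] [NormedSpace ℝ P]
    [FiniteDimensional ℝ P] [NormedAddCommGroup V] [NormedSpace ℝ V] [FiniteDimensional ℝ V]

/-- the parameter space for the bad values with `z_i = 1` -/
abbrev Par (P : Type) (n : ℕ) [NormedAddCommGroup P] [NormedSpace ℝ P] (i : Fin n) : Type :=
  P × (LinearMap.ker (coordR n i)) × (LinearMap.ker (colR n (n + 1) i))

/-- the map which parametrises the bad values with `z_i = 1` -/
noncomputable def bad (G0 : P × Cm n → V) (G1 : P × Cm n → Cm (n + 1)) (i : Fin n)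
    (x : Par P n i) : V × (Fin n → Cm (n + 1)) :=
  (-G0 (x.1, EuclideanSpace.single i 1 + (x.2.1 : Cm n)),
    (x.2.2 : Fin n → Cm (n + 1)) -
      ContinuousLinearMap.single ℝ (fun _ : Fin n => Cm (n + 1)) i
        (G1 (x.1, EuclideanSpace.single i 1 + (x.2.1 : Cm n)) +
          ∑ j, (x.2.1 : Cm n) j • (x.2.2 : Fin n → Cm (n + 1)) j))

lemma single_add_ne (i : Fin n) (w : LinearMap.ker (coordR n i)) :
    (EuclideanSpace.single i 1 + (w : Cm n) : Cm n) ≠ 0 := by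
  intro h
  have h1 : (EuclideanSpace.single i 1 + (w : Cm n) : Cm n) i = 0 := by rw [h]; rfl
  have h2 : (w : Cm n) i = 0 := w.2
  simp [h2] at h1

omit [FiniteDimensional ℝ P] [FiniteDimensional ℝ V] in
lemma contDiffOn_bad (O : Set P) (G0 : P × Cm n → V) (G1 : P × Cm n → Cm (n + 1))
    (h0 : ContDiffOn ℝ 1 G0 {x | x.1 ∈ O ∧ x.2 ≠ 0})
    (h1 : ContDiffOn ℝ 1 G1 {x | x.1 ∈ O ∧ x.2 ≠ 0}) (i : Fin n) :
    ContDiffOn ℝ 1 (bad G0 G1 i) (O ×ˢ (univ : Set (LinearMap.ker (coordR n i) ×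
      LinearMap.ker (colR n (n + 1) i)))) := by
  have hw : ContDiff ℝ 1 (fun x : Par P n i => (x.2.1 : Cm n)) :=
    (LinearMap.ker (coordR n i)).subtypeL.contDiff.comp (contDiff_fst.comp contDiff_snd)
  have hN : ContDiff ℝ 1 (fun x : Par P n i => (x.2.2 : Fin n → Cm (n + 1))) :=
    (LinearMap.ker (colR n (n + 1) i)).subtypeL.contDiff.comp (contDiff_snd.comp contDiff_snd)
  have hg : ContDiff ℝ 1 (fun x : Par P n i =>
      (x.1, EuclideanSpace.single i 1 + (x.2.1 : Cm n))) :=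
    contDiff_fst.prodMk (contDiff_const.add hw)
  have hm : MapsTo (fun x : Par P n i => (x.1, EuclideanSpace.single i 1 + (x.2.1 : Cm n)))
      (O ×ˢ (univ : Set (LinearMap.ker (coordR n i) × LinearMap.ker (colR n (n + 1) i))))
      {x : P × Cm n | x.1 ∈ O ∧ x.2 ≠ 0} := fun x hx => ⟨hx.1, single_add_ne i x.2.1⟩
  have hc0 := h0.comp hg.contDiffOn hm
  have hc1 := h1.comp hg.contDiffOn hm
  refine hc0.neg.prodMk ?_
  refine hN.contDiffOn.sub ?_
  refine (ContinuousLinearMap.single ℝ (fun _ : Fin n => Cm (n + 1)) i).contDiff.comp_contDiffOn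
    (hc1.add ?_)
  have : ContDiff ℝ 1 (fun x : Par P n i =>
      ∑ j, (x.2.1 : Cm n) j • (x.2.2 : Fin n → Cm (n + 1)) j) := by
    refine ContDiff.sum fun j _ => ?_
    have ha : ContDiff ℝ 1 (fun x : Par P n i => (x.2.1 : Cm n) j) :=
      (((EuclideanSpace.proj j : Cm n →L[ℂ] ℂ)).restrictScalars ℝ).contDiff.comp hw
    have hb : ContDiff ℝ 1 (fun x : Par P n i => (x.2.2 : Fin n → Cm (n + 1)) j) :=
      (contDiff_pi.1 hN) j
    exact ha.smul hb
  exact this.contDiffOn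

lemma finrank_par (hd : Module.finrank ℝ P = Module.finrank ℝ V + 3) (i : Fin n) :
    Module.finrank ℝ (Par P n i) + 1 = Module.finrank ℝ (V × (Fin n → Cm (n + 1))) := by
  have h1 := LinearMap.finrank_range_add_finrank_ker (coordR n i)
  have h2 := LinearMap.finrank_range_add_finrank_ker (colR n (n + 1) i)
  rw [LinearMap.range_eq_top.2 (coordR_surj n i), finrank_top] at h1
  rw [LinearMap.range_eq_top.2 (colR_surj n (n + 1) i), finrank_top] at h2
  have h3 : Module.finrank ℝ ℂ = 2 := Complex.finrank_real_complex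
  have h4 : ∀ m : ℕ, Module.finrank ℝ (Cm m) = 2 * m := fun m => by
    rw [← Module.finrank_mul_finrank ℝ ℂ (Cm m), h3, finrank_euclideanSpace_fin]
  rw [Module.finrank_prod, Module.finrank_prod, Module.finrank_prod, ← h2, hd]
  rw [h3, h4] at h1
  rw [h4]
  omega

lemma exists_good (hn : 0 < n) (hd : Module.finrank ℝ P = Module.finrank ℝ V + 3)
    (O : Set P) (hO' : Convex ℝ O)
    (G0 : P × Cm n → V) (G1 : P × Cm n → Cm (n + 1))
    (h0 : ContDiffOn ℝ 1 G0 {x | x.1 ∈ O ∧ x.2 ≠ 0})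
    (h1 : ContDiffOn ℝ 1 G1 {x | x.1 ∈ O ∧ x.2 ≠ 0}) :
    Dense (⋃ i : Fin n, bad G0 G1 i '' (O ×ˢ (univ : Set (LinearMap.ker (coordR n i) ×
      LinearMap.ker (colR n (n + 1) i)))))ᶜ := by
  apply dense_compl_of_dimH_lt_finrank
  have key : ∀ i : Fin n, dimH (bad G0 G1 i '' (O ×ˢ (univ : Set (LinearMap.ker (coordR n i) ×
      LinearMap.ker (colR n (n + 1) i))))) ≤
      ((Module.finrank ℝ (V × (Fin n → Cm (n + 1))) - 1 : ℕ) : ENNReal) := by
    intro i
    refine ((contDiffOn_bad O G0 G1 h0 h1 i).dimH_image_le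
      (hO'.prod convex_univ) Subset.rfl).trans ?_
    refine (dimH_mono (subset_univ _)).trans ?_
    rw [Real.dimH_univ_eq_finrank]
    have := finrank_par hd i
    exact_mod_cast (by omega : Module.finrank ℝ (Par P n i) ≤
      Module.finrank ℝ (V × (Fin n → Cm (n + 1))) - 1)
  rw [dimH_iUnion]
  refine (iSup_le key).trans_lt ?_
  have := finrank_par hd (⟨0, hn⟩ : Fin n)
  exact_mod_cast (by omega : Module.finrank ℝ (V × (Fin n → Cm (n + 1))) - 1 <
    Module.finrank ℝ (V × (Fin n → Cm (n + 1))))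

omit [FiniteDimensional ℝ P] [NormedSpace ℝ V] [FiniteDimensional ℝ V] in
/-- A solution with `z_i = 1` is a bad value. -/
lemma mem_bad (O : Set P) (G0 : P × Cm n → V) (G1 : P × Cm n → Cm (n + 1)) (i : Fin n)
    (v : V) (T : Fin n → Cm (n + 1)) (p : P) (hp : p ∈ O) (z : Cm n) (hz : z i = 1)
    (hv : G0 (p, z) + v = 0) (hT : G1 (p, z) + ofCols T z = 0) :
    (v, T) ∈ bad G0 G1 i '' (O ×ˢ (univ : Set (LinearMap.ker (coordR n i) ×
      LinearMap.ker (colR n (n + 1) i)))) := by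
  have hw : z - EuclideanSpace.single i 1 ∈ LinearMap.ker (coordR n i) := by
    rw [LinearMap.mem_ker]
    simp [coordR, hz]
  have hN : T - Pi.single i (T i) ∈ LinearMap.ker (colR n (n + 1) i) := by
    rw [LinearMap.mem_ker]
    simp [colR]
  refine ⟨(p, ⟨_, hw⟩, ⟨_, hN⟩), ⟨hp, mem_univ _⟩, ?_⟩
  have hz' : EuclideanSpace.single i 1 + (z - EuclideanSpace.single i 1) = z := by abel
  have hsum : ∑ j, (z - EuclideanSpace.single i 1 : Cm n) j •
      (T - Pi.single i (T i) : Fin n → Cm (n + 1)) j = ofCols T z - T i := by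
    rw [ofCols_apply, ← Finset.add_sum_erase _ _ (Finset.mem_univ i),
      ← Finset.add_sum_erase _ (fun j => z j • T j) (Finset.mem_univ i)]
    simp only [hz, one_smul, Pi.sub_apply, Pi.single_eq_same, sub_self, smul_zero, zero_add,
      add_sub_cancel_left]
    refine Finset.sum_congr rfl fun j hj => ?_
    have hji : j ≠ i := Finset.ne_of_mem_erase hj
    simp [hji]
  simp only [bad, hz', hsum]
  ext1
  · exact (eq_neg_of_add_eq_zero_right hv).symm
  · have : G1 (p, z) + (ofCols T z - T i) = - T i := by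
      rw [← add_sub_assoc, hT, zero_sub]
    rw [this]
    ext1 j
    by_cases hj : j = i
    · subst hj; simp
    · simp [hj]

/-- General position. -/
theorem general_position (hd : Module.finrank ℝ P = Module.finrank ℝ V + 3)
    (O : Set P) (_hO : IsOpen O) (hO' : Convex ℝ O)
    (G0 : P × Cm n → V) (G1 : P × Cm n → Cm (n + 1))
    (h0 : ContDiffOn ℝ 1 G0 {x | x.1 ∈ O ∧ x.2 ≠ 0})
    (h1 : ContDiffOn ℝ 1 G1 {x | x.1 ∈ O ∧ x.2 ≠ 0})
    (e0 : ∀ p z (c : ℂ), c ≠ 0 → G0 (p, c • z) = G0 (p, z))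
    (e1 : ∀ p z (c : ℂ), c ≠ 0 → G1 (p, c • z) = c • G1 (p, z))
    (κ : ℝ) (hκ : 0 < κ) :
    ∃ (v : V) (M : Cm n →L[ℂ] Cm (n + 1)), ‖v‖ < κ ∧ ‖M‖ < κ ∧
      ∀ p ∈ O, ∀ z : Cm n, z ≠ 0 → ¬ (G0 (p, z) + v = 0 ∧ G1 (p, z) + M z = 0) := by
  rcases n.eq_zero_or_pos with hn | hn
  · subst hn
    refine ⟨0, 0, by simpa using hκ, by simpa using hκ, fun p _ z hz => ?_⟩
    exact absurd (Subsingleton.elim z 0) hz
  · have hκn : 0 < κ / (n + 1) := by positivity
    obtain ⟨⟨v, T⟩, hvT, hgood⟩ := (exists_good hn hd O hO' G0 G1 h0 h1).inter_open_nonempty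
      (ball 0 (κ / (n + 1))) isOpen_ball ⟨0, mem_ball_self hκn⟩
    rw [mem_ball_zero_iff, Prod.norm_def, max_lt_iff] at hvT
    have hle : κ / (n + 1) ≤ κ := div_le_self hκ.le (by linarith [Nat.cast_nonneg (α := ℝ) n])
    refine ⟨v, ofCols T, hvT.1.trans_le hle, ?_, ?_⟩
    · refine (norm_ofCols_le T).trans_lt ?_
      have h2 : (n : ℝ) * ‖T‖ ≤ (n + 1) * ‖T‖ := by nlinarith [norm_nonneg T]
      have h3 : ((n : ℝ) + 1) * ‖T‖ < κ := by
        have := hvT.2
        rwa [lt_div_iff₀ (by positivity), mul_comm] at this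
      exact h2.trans_lt h3
    · rintro p hp z hz ⟨hv, hT⟩
      obtain ⟨i, hi⟩ : ∃ i, z i ≠ 0 := by
        by_contra hcon
        push Not at hcon
        exact hz (by ext j; simpa using hcon j)
      apply hgood
      refine mem_iUnion.2 ⟨i, mem_bad O G0 G1 i v T p hp ((z i)⁻¹ • z) ?_ ?_ ?_⟩
      · simp [hi]
      · rw [e0 _ _ _ (inv_ne_zero hi), hv]
      · rw [e1 _ _ _ (inv_ne_zero hi), map_smul, ← smul_add, hT, smul_zero]

end

end Pool.Agent.Helper49.CB
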